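import Pool.Agent.H62.EK.Liou

/-!
# No Erdős–Kac rate for generic quadratic floor polynomials

Definitions used in the statement (file `Pool.Agent.H62.EK.Defs`), for real `α, β, γ`:

* `X α β γ N n = (ω(⌊α n² + β n + γ⌋) - log log N) / √(log log N)`;
* `dK α β γ N`: the Kolmogorov distance between `X α β γ N n`, `n` uniform on `{1, …, N}`, and a
  standard normal variable;
* `rich α β γ θ N`: the number of the `n ≤ N` for which `⌊α n² + β n + γ⌋` has more than
  `θ log log N` distinct prime factors;
* `Admissible α β γ`: `α > 0`, `β² < 4 α γ`, and `α`, `β` are not both rational;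
* `Dips α β γ`: `α > 0` and the minimum `γ - β²/(4α)` of the polynomial is less than `1`;
* `Fails η Φ α β γ`: for every `k` there is `K ≥ k` such that for all `N` with `K ≤ N ≤ Φ K` both
  `dK α β γ N > k |η N|` and `rich α β γ (2 - 1/(k+2)) N > k |η N| N`.

`residual` is the filter of the sets whose complement is meager.

The reason: along a suitable residue class `n = q m + r` a suitable rational polynomial with constant
term in `(γ - 1, γ)` is a product `K (a m + 1) (c m + 1)`, `a ≠ c`, which is the integer part of every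
polynomial close to it, for all `n` up to a bound that depends on how close it is; and such rational
polynomials are dense, also on the lines where `α` or `β` is a fixed rational number.
-/

namespace Pool.Agent.Results.MP_02e1b1_nt.GenericFailure

open Filter Topology Pool.Agent.H62.EK

/-- First part: Q1 is false, no sequence tending to zero is a rate for all admissible triples.
Second part, for every `η → 0` and every `Φ`: the failure is generic in the plane, for all `γ` at
once; generic in `α`, for all rational `β` and all `γ` at once; generic in `β`, for all rational `α`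
and all `γ` at once; and it holds for all pairs `(α, β)` which have infinitely many simultaneous
rational approximations of quality `Ψ`, for all `0 < γ < 1`. -/
theorem result :
    (∀ η : ℕ → ℝ, Tendsto η atTop (𝓝 0) → ∃ α β γ : ℝ, Admissible α β γ ∧
      ¬ ((fun N => dK α β γ N) =O[atTop] η)) ∧
    ∀ (η : ℕ → ℝ) (Φ : ℕ → ℕ), Tendsto η atTop (𝓝 0) → (∀ K, K ≤ Φ K) →
      (∀ α β γ : ℝ, Fails η Φ α β γ → ¬ ((fun N => dK α β γ N) =O[atTop] η)) ∧
      (∀ᶠ p : ℝ × ℝ in residual (ℝ × ℝ), Irrational p.1 ∧ Irrational p.2 ∧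
        ∀ γ : ℝ, Dips p.1 p.2 γ → Fails η Φ p.1 p.2 γ) ∧
      (∀ᶠ α : ℝ in residual ℝ, Irrational α ∧
        ∀ (β : ℚ) (γ : ℝ), Dips α β γ → Fails η Φ α β γ) ∧
      (∀ᶠ β : ℝ in residual ℝ, Irrational β ∧
        ∀ (α : ℚ) (γ : ℝ), Dips α β γ → Fails η Φ α β γ) ∧
      (∃ Ψ : ℕ → ℝ, (∀ q, 0 < Ψ q) ∧ ∀ α β : ℝ, 0 < α → β ≠ 0 →
        (∃ᶠ q : ℕ in atTop, ∃ (a : ℕ) (b : ℤ), |α - a / q| < Ψ q ∧ |β - b / q| < Ψ q) →
        ∀ γ : ℝ, 0 < γ → γ < 1 → Fails η Φ α β γ) := by
  refine ⟨fun η hη => ?_,
    fun η Φ hη hΦ => ⟨fun α β γ h => not_isBigO hΦ h, ?_, ?_, ?_, liouville η hη Φ⟩⟩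
  · have h := (eventually_residual_irrational.and (line_alpha η hη id))
    obtain ⟨α, h1, h2, h3⟩ := (dense_of_mem_residual h).inter_open_nonempty
      (Set.Ioi 0) isOpen_Ioi ⟨1, by norm_num⟩
    have h1' : (0 : ℝ) < α := h1
    refine ⟨α, (0 : ℚ), 1 / 2, ⟨h1', ?_, Or.inl h2⟩, not_isBigO (fun K => le_rfl)
      (h3 0 (1 / 2) ⟨h1', ?_⟩)⟩
    · push_cast
      nlinarith
    · push_cast
      nlinarith
  · filter_upwards [irrational_coords, plane η hη Φ] with p h1 h2 using ⟨h1.1, h1.2, h2⟩
  · filter_upwards [eventually_residual_irrational, line_alpha η hη Φ] with α h1 h2 using ⟨h1, h2⟩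
  · filter_upwards [eventually_residual_irrational, line_beta η hη Φ] with β h1 h2 using ⟨h1, h2⟩

end Pool.Agent.Results.MP_02e1b1_nt.GenericFailure
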